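import Mathlib

/-!
# Hypersurfaces of `ℂ^(m+1)` which admit holomorphic immersions into `ℂ^m`

Every hypersurface `x c(y) + d(y) = 1`, with entire functions `c`, `d` on `ℂ^m` that are semi-invariant
of the same weight under some holomorphic action of the additive group `ℂ` on `ℂ^m` (for example
weighted homogeneous polynomials of the same degree), admits a holomorphic immersion into `ℂ^m`.
Consequences: `SL(n)`, the symmetric matrices of determinant one, the affine quadrics.

The function `exists_G` and the idea of the correction by `exp` are those of the earlier file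
`ExplicitImmersion` (the case `SL(n)`).
-/

set_option autoImplicit false

noncomputable section

namespace Pool.Agent.Results.MP_0cafb6_an.HypersurfaceImmersions

/-- The level set `h = 1` of the entire function `h` on the complex vector space `V` of dimension
`m + 1` is a smooth hypersurface (`dh` vanishes at none of its points), and some entire map from `V`
to `ℂ^m` is an immersion on it: at every point its differential is injective on the tangent space
`ker dh`. -/
def LevelImmerses (V : Type) [NormedAddCommGroup V] [NormedSpace ℂ V] (m : ℕ) (h : V → ℂ) : Prop :=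
  Module.finrank ℂ V = m + 1 ∧ Differentiable ℂ h ∧ (∀ a, h a = 1 → fderiv ℂ h a ≠ 0) ∧
    ∃ f : V → (Fin m → ℂ), Differentiable ℂ f ∧
      ∀ a, h a = 1 → ∀ v, fderiv ℂ h a v = 0 → fderiv ℂ f a v = 0 → v = 0

/-- A holomorphic action `φ(t, y)` of the additive group `ℂ` on `W`. -/
def IsAction {W : Type} [NormedAddCommGroup W] [NormedSpace ℂ W] (φ : ℂ × W → W) : Prop :=
  Differentiable ℂ φ ∧ (∀ y, φ (0, y) = y) ∧ ∀ s t y, φ (s + t, y) = φ (s, φ (t, y))

/-- The function `c` is semi-invariant of weight one under the action. -/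
def SemiInvariant {W : Type} (φ : ℂ × W → W) (c : W → ℂ) : Prop :=
  ∀ t y, c (φ (t, y)) = Complex.exp t * c y

/-- An entire function `G` with `z ^ 2 * G' z = exp z - 1 - z`. -/
theorem exists_G : ∃ G G' : ℂ → ℂ, (∀ z, HasDerivAt G (G' z) z) ∧
    ∀ z, z ^ 2 * G' z = Complex.exp z - 1 - z := by
  set g1 : ℂ → ℂ := dslope Complex.exp 0 with hg1
  set g2 : ℂ → ℂ := dslope g1 0 with hg2
  have h1 : Differentiable ℂ g1 := by
    rw [← differentiableOn_univ]
    exact (Complex.differentiableOn_dslope Filter.univ_mem).2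
      Complex.differentiable_exp.differentiableOn
  have h2 : Differentiable ℂ g2 := by
    rw [← differentiableOn_univ]
    exact (Complex.differentiableOn_dslope Filter.univ_mem).2 h1.differentiableOn
  obtain ⟨G, hG⟩ := h2.isExactOn_univ
  refine ⟨G, g2, fun z => hG z (Set.mem_univ z), fun z => ?_⟩
  have e1 : g1 0 = 1 := by
    rw [hg1, dslope_same]
    simp
  by_cases hz : z = 0
  · subst hz
    simp
  · rw [hg2, dslope_of_ne _ hz, slope_def_field, e1, hg1, dslope_of_ne _ hz, slope_def_field,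
      Complex.exp_zero]
    field_simp
    ring

section main

variable {W : Type} [NormedAddCommGroup W] [NormedSpace ℂ W]

/-- derivative of a semi-invariant along the action -/
theorem semi_deriv {φ : ℂ × W → W} (hφ : IsAction φ) {c : W → ℂ} (hc : Differentiable ℂ c)
    (hs : SemiInvariant φ c) (y : W) : fderiv ℂ c y (fderiv ℂ φ (0, y) (1, 0)) = c y := by
  have h1 : HasDerivAt (fun t : ℂ => ((t, y) : ℂ × W)) ((1, 0) : ℂ × W) 0 :=
    (hasDerivAt_id (0 : ℂ)).prodMk (hasDerivAt_const (0 : ℂ) y)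
  have h2 : HasDerivAt (fun t : ℂ => φ (t, y)) (fderiv ℂ φ (0, y) (1, 0)) 0 :=
    (hφ.1 (0, y)).hasFDerivAt.comp_hasDerivAt (0 : ℂ) h1
  have h3 : HasFDerivAt c (fderiv ℂ c y) (φ (0, y)) := by
    rw [hφ.2.1 y]
    exact (hc y).hasFDerivAt
  have h4 : HasDerivAt (fun t : ℂ => c (φ (t, y))) (fderiv ℂ c y (fderiv ℂ φ (0, y) (1, 0))) 0 :=
    h3.comp_hasDerivAt (0 : ℂ) h2
  have h5 : HasDerivAt (fun t : ℂ => c (φ (t, y))) (Complex.exp 0 * c y) 0 := by
    have : (fun t : ℂ => c (φ (t, y))) = fun t => Complex.exp t * c y := funext fun t => hs t y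
    rw [this]
    exact (Complex.hasDerivAt_exp 0).mul_const (c y)
  rw [h4.unique h5, Complex.exp_zero, one_mul]

/-- the vectors killed by the differential of the action -/
theorem ker_action {φ : ℂ × W → W} (hφ : IsAction φ) (u : ℂ) (y : W) (k : ℂ) (w : W)
    (h : fderiv ℂ φ (u, y) (k, w) = 0) : w = - (k • fderiv ℂ φ (0, y) (1, 0)) := by
  -- the map `q ↦ φ (-u, φ q) = φ (q.1 - u, q.2)`
  have e1 : (fun q : ℂ × W => φ (-u, φ q)) = fun q => φ (q.1 - u, q.2) := by
    funext q
    rw [← hφ.2.2, neg_add_eq_sub]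
  have h1 : HasFDerivAt (fun q : ℂ × W => ((-u, φ q) : ℂ × W))
      ((0 : ℂ × W →L[ℂ] ℂ).prod (fderiv ℂ φ (u, y))) (u, y) :=
    (hasFDerivAt_const (-u) _).prodMk (hφ.1 (u, y)).hasFDerivAt
  have h2 : HasFDerivAt (fun q : ℂ × W => φ (-u, φ q))
      ((fderiv ℂ φ (-u, φ (u, y))).comp ((0 : ℂ × W →L[ℂ] ℂ).prod (fderiv ℂ φ (u, y)))) (u, y) :=
    (hφ.1 (-u, φ (u, y))).hasFDerivAt.comp (u, y) h1
  have h3 : HasFDerivAt (fun q : ℂ × W => ((q.1 - u, q.2) : ℂ × W))
      (ContinuousLinearMap.id ℂ (ℂ × W)) (u, y) := by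
    have : (fun q : ℂ × W => ((q.1 - u, q.2) : ℂ × W)) = fun q => q - (u, 0) := by
      funext q
      ext <;> simp
    rw [this]
    exact (hasFDerivAt_id (u, y)).sub_const (u, 0)
  have h4 : HasFDerivAt (fun q : ℂ × W => φ (q.1 - u, q.2)) (fderiv ℂ φ (0, y)) (u, y) := by
    have h5 : HasFDerivAt φ (fderiv ℂ φ (0, y)) ((fun q : ℂ × W => ((q.1 - u, q.2) : ℂ × W)) (u, y)) := by
      simp only [sub_self]
      exact (hφ.1 (0, y)).hasFDerivAt
    have := h5.comp (u, y) h3
    rwa [ContinuousLinearMap.comp_id] at this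
  rw [e1] at h2
  have h6 := h4.unique h2
  have h7 : fderiv ℂ φ (0, y) (k, w) = 0 := by
    rw [h6]
    simp only [ContinuousLinearMap.comp_apply, ContinuousLinearMap.prod_apply, h,
      zero_apply]
    exact map_zero _
  -- `φ (0, y) = y`
  have h8 : HasFDerivAt (fun z : W => φ (0, z)) ((fderiv ℂ φ (0, y)).comp
      ((0 : W →L[ℂ] ℂ).prod (ContinuousLinearMap.id ℂ W))) y := by
    have : HasFDerivAt (fun z : W => ((0, z) : ℂ × W))
        ((0 : W →L[ℂ] ℂ).prod (ContinuousLinearMap.id ℂ W)) y :=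
      (hasFDerivAt_const (0 : ℂ) y).prodMk (hasFDerivAt_id y)
    exact (hφ.1 (0, y)).hasFDerivAt.comp y this
  have h9 : (fun z : W => φ (0, z)) = id := funext hφ.2.1
  rw [h9] at h8
  have h10 := (hasFDerivAt_id y).unique h8
  have h11 : fderiv ℂ φ (0, y) (0, w) = w := by
    have := congrArg (fun L : W →L[ℂ] W => L w) h10
    simpa using this.symm
  have h12 : ((k, w) : ℂ × W) = k • ((1, 0) : ℂ × W) + (0, w) := by
    ext <;> simp
  rw [h12, map_add, map_smul, h11] at h7
  exact eq_neg_of_add_eq_zero_right h7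

/-- the differential of `x c(y) + d(y)` -/
theorem hasFDerivAt_h {c d : W → ℂ} (hc : Differentiable ℂ c) (hd : Differentiable ℂ d)
    (p : ℂ × W) : HasFDerivAt (fun q : ℂ × W => q.1 * c q.2 + d q.2)
      (p.1 • (fderiv ℂ c p.2).comp (ContinuousLinearMap.snd ℂ ℂ W) +
        c p.2 • (ContinuousLinearMap.fst ℂ ℂ W) +
        (fderiv ℂ d p.2).comp (ContinuousLinearMap.snd ℂ ℂ W)) p := by
  have h1 : HasFDerivAt (fun q : ℂ × W => c q.2)
      ((fderiv ℂ c p.2).comp (ContinuousLinearMap.snd ℂ ℂ W)) p :=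
    (hc p.2).hasFDerivAt.comp p hasFDerivAt_snd
  have h2 : HasFDerivAt (fun q : ℂ × W => d q.2)
      ((fderiv ℂ d p.2).comp (ContinuousLinearMap.snd ℂ ℂ W)) p :=
    (hd p.2).hasFDerivAt.comp p hasFDerivAt_snd
  exact (hasFDerivAt_fst.mul h1).add h2

/-- The general theorem, with values in `W`. -/
theorem general {φ : ℂ × W → W} (hφ : IsAction φ) {c d : W → ℂ} (hc : Differentiable ℂ c)
    (hd : Differentiable ℂ d) (hcs : SemiInvariant φ c) (hds : SemiInvariant φ d) :
    Differentiable ℂ (fun q : ℂ × W => q.1 * c q.2 + d q.2) ∧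
    (∀ p : ℂ × W, p.1 * c p.2 + d p.2 = 1 →
      fderiv ℂ (fun q : ℂ × W => q.1 * c q.2 + d q.2) p ≠ 0) ∧
    ∃ f : ℂ × W → W, Differentiable ℂ f ∧ ∀ p : ℂ × W, p.1 * c p.2 + d p.2 = 1 →
      ∀ v, fderiv ℂ (fun q : ℂ × W => q.1 * c q.2 + d q.2) p v = 0 → fderiv ℂ f p v = 0 → v = 0 := by
  obtain ⟨G, G', hG, hGG⟩ := exists_G
  have hGd : Differentiable ℂ G := fun z => (hG z).differentiableAt
  refine ⟨fun p => (hasFDerivAt_h hc hd p).differentiableAt, ?_, ?_⟩
  · intro p hp h0
    have h1 := congrArg (fun L : ℂ × W →L[ℂ] ℂ => L (0, fderiv ℂ φ (0, p.2) (1, 0))) h0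
    rw [(hasFDerivAt_h hc hd p).fderiv] at h1
    simp only [add_apply, smul_apply,
      ContinuousLinearMap.comp_apply, ContinuousLinearMap.coe_snd', ContinuousLinearMap.coe_fst',
      semi_deriv hφ hc hcs, semi_deriv hφ hd hds, smul_eq_mul, mul_zero, add_zero,
      zero_apply] at h1
    rw [hp] at h1
    exact one_ne_zero h1
  have hu : Differentiable ℂ (fun q : ℂ × W => - q.1 + G (c q.2)) :=
    differentiable_fst.neg.add (hGd.comp (hc.comp differentiable_snd))
  refine ⟨fun q => φ (- q.1 + G (c q.2), q.2), hφ.1.comp (hu.prodMk differentiable_snd), ?_⟩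
  rintro ⟨x, y⟩ hp ⟨b, w⟩ hdh hdf
  simp only at hp
  rw [(hasFDerivAt_h hc hd _).fderiv] at hdh
  simp only [add_apply, smul_apply,
      ContinuousLinearMap.comp_apply, ContinuousLinearMap.coe_snd', ContinuousLinearMap.coe_fst',
      smul_eq_mul] at hdh
  -- the differential of `u`
  have hu' : HasFDerivAt (fun q : ℂ × W => - q.1 + G (c q.2))
      (-(ContinuousLinearMap.fst ℂ ℂ W) +
        (G' (c y)) • (fderiv ℂ c y).comp (ContinuousLinearMap.snd ℂ ℂ W)) ((x, y) : ℂ × W) := by
    refine hasFDerivAt_fst.neg.add ?_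
    have h1 : HasFDerivAt (fun q : ℂ × W => c q.2)
        ((fderiv ℂ c y).comp (ContinuousLinearMap.snd ℂ ℂ W)) ((x, y) : ℂ × W) :=
      (hc y).hasFDerivAt.comp ((x, y) : ℂ × W) hasFDerivAt_snd
    exact (hG (c y)).comp_hasFDerivAt ((x, y) : ℂ × W) h1
  set u0 : ℂ := - x + G (c y) with hu0
  set k : ℂ := -b + G' (c y) * fderiv ℂ c y w with hk
  have hf' : HasFDerivAt (fun q : ℂ × W => φ (- q.1 + G (c q.2), q.2))
      ((fderiv ℂ φ (u0, y)).comp ((-(ContinuousLinearMap.fst ℂ ℂ W) +
        (G' (c y)) • (fderiv ℂ c y).comp (ContinuousLinearMap.snd ℂ ℂ W)).prod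
          (ContinuousLinearMap.snd ℂ ℂ W))) ((x, y) : ℂ × W) :=
    (hφ.1 (u0, y)).hasFDerivAt.comp ((x, y) : ℂ × W) (hu'.prodMk hasFDerivAt_snd)
  rw [hf'.fderiv] at hdf
  have hdf' : fderiv ℂ φ (u0, y) (k, w) = 0 := by
    rw [← hdf]
    simp [hk]
  have hw := ker_action hφ u0 y k w hdf'
  have hcw : fderiv ℂ c y w = - (k * c y) := by
    rw [hw, map_neg, map_smul, semi_deriv hφ hc hcs, smul_eq_mul]
  have hdw : fderiv ℂ d y w = - (k * d y) := by
    rw [hw, map_neg, map_smul, semi_deriv hφ hd hds, smul_eq_mul]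
  rw [hcw, hdw] at hdh
  have hkb : k = b * c y := by linear_combination (-k) * hp - hdh
  have hkk : k = -b - G' (c y) * (k * c y) := by
    rw [hcw] at hk
    linear_combination hk
  have hfin : b * Complex.exp (c y) = 0 := by
    have h1 := hGG (c y)
    have h2 : b * (1 + c y + (c y) ^ 2 * G' (c y)) = 0 := by
      linear_combination hkb * (-1 - G' (c y) * c y) + hkk
    rw [h1] at h2
    linear_combination h2
  have hb : b = 0 := (mul_eq_zero.1 hfin).resolve_right (Complex.exp_ne_zero _)
  have hk0 : k = 0 := by rw [hkb, hb, zero_mul]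
  rw [hk0, zero_smul, neg_zero] at hw
  rw [hb, hw]
  rfl

end main

/-! ### Transfer and the main cases -/

/-- Transfer along a linear isomorphism. -/
theorem LevelImmerses.transfer {V V' : Type} [NormedAddCommGroup V] [NormedSpace ℂ V]
    [NormedAddCommGroup V'] [NormedSpace ℂ V'] [FiniteDimensional ℂ V] (e : V ≃ₗ[ℂ] V') {m : ℕ}
    {h : V' → ℂ} (H : LevelImmerses V' m h) : LevelImmerses V m (fun a => h (e a)) := by
  obtain ⟨h1, h2, h3, f, hf, h4⟩ := H
  have hfd : FiniteDimensional ℂ V' := e.finiteDimensional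
  let L : V ≃L[ℂ] V' := e.toContinuousLinearEquiv
  have hL : ∀ a, HasFDerivAt (fun a => L a) (L : V →L[ℂ] V') a := fun a => L.hasFDerivAt
  have hh : ∀ a, fderiv ℂ (fun a => h (e a)) a = (fderiv ℂ h (e a)).comp (L : V →L[ℂ] V') :=
    fun a => ((h2 (L a)).hasFDerivAt.comp a (hL a)).fderiv
  have hff : ∀ a, fderiv ℂ (fun a => f (e a)) a = (fderiv ℂ f (e a)).comp (L : V →L[ℂ] V') :=
    fun a => ((hf (L a)).hasFDerivAt.comp a (hL a)).fderiv
  refine ⟨by rw [e.finrank_eq, h1], h2.comp L.differentiable, ?_, fun a => f (e a),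
    hf.comp L.differentiable, ?_⟩
  · intro a ha h0
    rw [hh] at h0
    apply h3 (e a) ha
    ext v
    have := congrArg (fun T : V →L[ℂ] ℂ => T (L.symm v)) h0
    simpa using this
  · intro a ha v hv hfv
    rw [hh] at hv
    rw [hff] at hfv
    have := h4 (e a) ha (L v) hv hfv
    exact (map_eq_zero_iff L L.injective).1 this

/-- The general theorem, over any finite-dimensional space. -/
theorem general' {W : Type} [NormedAddCommGroup W] [NormedSpace ℂ W] [FiniteDimensional ℂ W]
    {φ : ℂ × W → W} (hφ : IsAction φ) {c d : W → ℂ} (hc : Differentiable ℂ c)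
    (hd : Differentiable ℂ d) (hcs : SemiInvariant φ c) (hds : SemiInvariant φ d) {m : ℕ}
    (hm : Module.finrank ℂ W = m) :
    LevelImmerses (ℂ × W) m (fun q : ℂ × W => q.1 * c q.2 + d q.2) := by
  obtain ⟨h1, h2, f, hf, h3⟩ := general hφ hc hd hcs hds
  have hm' : Module.finrank ℂ W = Module.finrank ℂ (Fin m → ℂ) := by simp [hm]
  let L : W ≃L[ℂ] (Fin m → ℂ) := ContinuousLinearEquiv.ofFinrankEq hm'
  refine ⟨by rw [Module.finrank_prod, hm]; simp [add_comm], h1, h2, fun q => L (f q),
    L.differentiable.comp hf, ?_⟩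
  intro p hp v hv hfv
  apply h3 p hp v hv
  have h4 : fderiv ℂ (fun q => L (f q)) p = (L : W →L[ℂ] (Fin m → ℂ)).comp (fderiv ℂ f p) :=
    (L.hasFDerivAt.comp p (hf p).hasFDerivAt).fderiv
  rw [h4] at hfv
  exact (map_eq_zero_iff L L.injective).1 hfv

/-- The main theorem for a function on `V` that is affine in one coordinate. -/
theorem of_affine {V W : Type} [NormedAddCommGroup V] [NormedSpace ℂ V] [FiniteDimensional ℂ V]
    [NormedAddCommGroup W] [NormedSpace ℂ W] [FiniteDimensional ℂ W] (e : V ≃ₗ[ℂ] ℂ × W)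
    {h : V → ℂ} (hd : Differentiable ℂ h)
    (ha : ∀ x y, h (e.symm (x, y)) =
      x * (h (e.symm (1, y)) - h (e.symm (0, y))) + h (e.symm (0, y)))
    {φ : ℂ × W → W} (hφ : IsAction φ)
    (hs : ∀ t x y, h (e.symm (x, φ (t, y))) = Complex.exp t * h (e.symm (x, y))) {m : ℕ}
    (hm : Module.finrank ℂ V = m + 1) : LevelImmerses V m h := by
  have hW : Module.finrank ℂ W = m := by
    have h1 := e.finrank_eq
    rw [Module.finrank_prod, hm, Module.finrank_self] at h1
    omega
  let L : (ℂ × W) ≃L[ℂ] V := e.symm.toContinuousLinearEquiv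
  have hL : ∀ x : ℂ, Differentiable ℂ (fun y : W => h (e.symm (x, y))) := by
    intro x
    have h1 : Differentiable ℂ (fun y : W => ((x, y) : ℂ × W)) :=
      (differentiable_const x).prodMk differentiable_id
    exact hd.comp (L.differentiable.comp h1)
  have h2 := general' hφ (c := fun y => h (e.symm (1, y)) - h (e.symm (0, y)))
    (d := fun y => h (e.symm (0, y))) ((hL 1).sub (hL 0)) (hL 0)
    (fun t y => by simp only [hs]; ring) (fun t y => hs t 0 y) hW
  have h3 := h2.transfer e
  have h4 : (fun a => (e a).1 * (h (e.symm (1, (e a).2)) - h (e.symm (0, (e a).2))) +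
      h (e.symm (0, (e a).2))) = h := by
    funext a
    rw [← ha, Prod.mk.eta, e.symm_apply_apply]
  rwa [h4] at h3

/-- The diagonal action with weights `w`. -/
theorem isAction_diag {ι : Type} [Fintype ι] (w : ι → ℂ) :
    IsAction (fun q : ℂ × (ι → ℂ) => fun i => Complex.exp (w i * q.1) * q.2 i) := by
  refine ⟨by fun_prop, ?_, ?_⟩
  · intro y
    funext i
    simp
  · intro s t y
    funext i
    simp only
    rw [mul_add, Complex.exp_add]
    ring

/-- affine dependence of a determinant on one diagonal entry -/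
theorem det_entry {n : ℕ} (A B C : Matrix (Fin (n + 1)) (Fin (n + 1)) ℂ) (x : ℂ)
    (h0 : ∀ i j, i ≠ 0 → A i j = C i j ∧ B i j = C i j)
    (h1 : ∀ j, j ≠ 0 → A 0 j = C 0 j ∧ B 0 j = C 0 j)
    (hA : A 0 0 = C 0 0 + x) (hB : B 0 0 = C 0 0 + 1) :
    A.det = x * (B.det - C.det) + C.det := by
  have hA' : A = C.updateRow 0 (C 0 + x • Pi.single 0 1) := by
    ext i j
    by_cases hi : i = 0
    · subst hi
      rw [Matrix.updateRow_self]
      by_cases hj : j = 0
      · subst hj
        simp [hA]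
      · simp [(h1 j hj).1, hj]
    · rw [Matrix.updateRow_ne hi, (h0 i j hi).1]
  have hB' : B = C.updateRow 0 (C 0 + (1 : ℂ) • Pi.single 0 1) := by
    ext i j
    by_cases hi : i = 0
    · subst hi
      rw [Matrix.updateRow_self]
      by_cases hj : j = 0
      · subst hj
        simp [hB]
      · simp [(h1 j hj).2, hj]
    · rw [Matrix.updateRow_ne hi, (h0 i j hi).2]
  rw [hA', hB', Matrix.det_updateRow_add, Matrix.det_updateRow_add, Matrix.det_updateRow_smul,
    Matrix.det_updateRow_smul, Matrix.updateRow_eq_self]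
  ring

/-- The determinant is an entire function of the matrix entries. -/
theorem differentiable_det (n : ℕ) :
    Differentiable ℂ (fun M : Fin n → Fin n → ℂ => (Matrix.of M).det) := by
  simp only [Matrix.det_apply, Matrix.of_apply]
  fun_prop

/-- Splitting off one coordinate. -/
def splitAt {ι : Type} [DecidableEq ι] (i0 : ι) : (ι → ℂ) ≃ₗ[ℂ] ℂ × ({j // j ≠ i0} → ℂ) where
  toFun a := (a i0, fun j => a j)
  invFun q := fun j => if h : j = i0 then q.1 else q.2 ⟨j, h⟩
  map_add' a b := rfl
  map_smul' r a := rfl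
  left_inv a := by
    funext j
    by_cases h : j = i0
    · subst h
      simp
    · simp [h]
  right_inv q := by
    ext j
    · simp
    · simp [j.2]

/-- Determinants of square matrices whose entries are coordinates, the entry `(0,0)` being
different from all others. -/
theorem det_case {ι : Type} [Fintype ι] [DecidableEq ι] (n : ℕ)
    (s : Fin (n + 1) → Fin (n + 1) → ι) (hs : ∀ i j, s i j = s 0 0 → i = 0 ∧ j = 0)
    (w : ι → ℂ) (r r' : Fin (n + 1) → ℂ) (hw : ∀ i j, w (s i j) = r i + r' j)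
    (h0 : r 0 + r' 0 = 0) (h1 : ∑ i, r i + ∑ i, r' i = 1) {m : ℕ} (hm : Fintype.card ι = m + 1) :
    LevelImmerses (ι → ℂ) m (fun a => (Matrix.of fun i j => a (s i j)).det) := by
  classical
  have hdiff : Differentiable ℂ (fun a : ι → ℂ => (Matrix.of fun i j => a (s i j)).det) := by
    have h2 : Differentiable ℂ (fun a : ι → ℂ => fun (i j : Fin (n + 1)) => a (s i j)) := by
      fun_prop
    exact (differentiable_det (n + 1)).comp h2
  refine of_affine (splitAt (s 0 0)) hdiff ?_
    (isAction_diag (fun z : {z // z ≠ s 0 0} => w z)) ?_ (by simp [hm])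
  · intro x y
    refine det_entry _ _ _ x ?_ ?_ ?_ ?_
    · intro i j hi
      have : s i j ≠ s 0 0 := fun h => hi (hs i j h).1
      simp [splitAt, this]
    · intro j hj
      have : s 0 j ≠ s 0 0 := fun h => hj (hs 0 j h).2
      simp [splitAt, this]
    · simp [splitAt]
    · simp [splitAt]
  · intro t x y
    have e1 : (Matrix.of fun i j => (splitAt (s 0 0)).symm (x, fun z : {z // z ≠ s 0 0} =>
        Complex.exp (w z * t) * y z) (s i j)) = Matrix.of fun i j =>
        Complex.exp (r i * t) * (Matrix.of fun i j => Complex.exp (r' j * t) *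
          (Matrix.of fun i j => (splitAt (s 0 0)).symm (x, y) (s i j)) i j) i j := by
      ext i j
      simp only [Matrix.of_apply]
      by_cases h : s i j = s 0 0
      · obtain ⟨rfl, rfl⟩ := hs i j h
        have h2 : Complex.exp (r 0 * t) * Complex.exp (r' 0 * t) = 1 := by
          rw [← Complex.exp_add, ← add_mul, h0, zero_mul, Complex.exp_zero]
        simp only [splitAt, LinearEquiv.coe_symm_mk', dite_true]
        linear_combination (-x) * h2
      · simp only [splitAt, LinearEquiv.coe_symm_mk', h, dite_false]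
        rw [hw, add_mul, Complex.exp_add]
        ring
    rw [e1, Matrix.det_mul_column, Matrix.det_mul_row, ← Complex.exp_sum, ← Complex.exp_sum,
      ← mul_assoc, ← Complex.exp_add, ← Finset.sum_mul, ← Finset.sum_mul, ← add_mul, h1, one_mul]

/-- Matrices as functions of pairs. -/
def pairs (n : ℕ) : (Fin n → Fin n → ℂ) ≃ₗ[ℂ] (Fin n × Fin n → ℂ) where
  toFun M p := M p.1 p.2
  invFun a i j := a (i, j)
  map_add' _ _ := rfl
  map_smul' _ _ := rfl
  left_inv _ := rfl
  right_inv _ := rfl

theorem special_linear (n : ℕ) (hn : 2 ≤ n) :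
    LevelImmerses (Fin n → Fin n → ℂ) (n ^ 2 - 1) (fun M => (Matrix.of M).det) := by
  obtain ⟨m, rfl⟩ : ∃ m, n = m + 2 := ⟨n - 2, by omega⟩
  have h := det_case (ι := Fin (m + 2) × Fin (m + 2)) (m + 1) Prod.mk
    (fun i j h => ⟨(Prod.ext_iff.1 h).1, (Prod.ext_iff.1 h).2⟩)
    (fun p => (Pi.single 1 1 : Fin (m + 2) → ℂ) p.1) (Pi.single 1 1) 0 (by simp) (by simp)
    (by simp) (m := (m + 2) ^ 2 - 1) (by
      rw [Fintype.card_prod, Fintype.card_fin]
      have : 1 ≤ (m + 2) ^ 2 := Nat.one_le_pow _ _ (by omega)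
      rw [Nat.sub_add_cancel this]
      ring)
  exact h.transfer (pairs (m + 2))

theorem symmetric (n : ℕ) (hn : 2 ≤ n) :
    LevelImmerses (Sym2 (Fin n) → ℂ) (n * (n + 1) / 2 - 1)
      (fun a => (Matrix.of fun i j => a s(i, j)).det) := by
  obtain ⟨m, rfl⟩ : ∃ m, n = m + 2 := ⟨n - 2, by omega⟩
  let r : Fin (m + 2) → ℂ := fun i => if i = 0 then 0 else 1 / (2 * (m + 1))
  have hr : ∑ i, r i = 1 / 2 := by
    rw [Fin.sum_univ_succ]
    have h1 : ∀ i : Fin (m + 1), r i.succ = 1 / (2 * (m + 1)) := by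
      intro i
      simp [r]
    simp only [h1, Finset.sum_const, Finset.card_univ, Fintype.card_fin, nsmul_eq_mul]
    have h2 : ((m : ℂ) + 1) ≠ 0 := Nat.cast_add_one_ne_zero m
    simp only [r, if_true]
    push_cast
    field_simp
    ring
  refine det_case (m + 1) (fun i j => s(i, j)) ?_
    (Sym2.lift ⟨fun i j => r i + r j, fun i j => add_comm _ _⟩) r r (by simp) ?_ ?_ ?_
  · intro i j h
    simpa using h
  · simp [r]
  · rw [hr]
    norm_num
  · rw [Sym2.card, Fintype.card_fin, Nat.choose_two_right]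
    have h1 : (m + 2 + 1) * (m + 2 + 1 - 1) = (m + 2) * (m + 2 + 1) := by
      rw [Nat.add_sub_cancel]
      ring
    rw [h1]
    have h2 : 2 ≤ (m + 2) * (m + 2 + 1) := by nlinarith
    omega

/-- The quadric `x y_0 + y_1 ^ 2 + ... + y_k ^ 2 = 1`. -/
theorem quadric_split (k : ℕ) : LevelImmerses (ℂ × (Fin (k + 1) → ℂ)) (k + 1)
    (fun q : ℂ × (Fin (k + 1) → ℂ) => q.1 * q.2 0 + ∑ j : Fin k, q.2 j.succ ^ 2) := by
  refine general' (W := Fin (k + 1) → ℂ) (c := fun y => y 0)
    (d := fun y => ∑ j : Fin k, y j.succ ^ 2)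
    (isAction_diag (fun i : Fin (k + 1) => if i = 0 then (1 : ℂ) else 1 / 2)) (by fun_prop)
    (by fun_prop) ?_ ?_ (by simp)
  · intro t y
    simp
  · intro t y
    simp only [Fin.succ_ne_zero, if_false, mul_pow]
    rw [Finset.mul_sum]
    refine Finset.sum_congr rfl fun j _ => ?_
    rw [← Complex.exp_nat_mul]
    congr 2
    push_cast
    ring

/-- The change of variables from a sum of squares. -/
def squares (k : ℕ) : (Fin (k + 2) → ℂ) ≃ₗ[ℂ] ℂ × (Fin (k + 1) → ℂ) where
  toFun a := (a 0 + Complex.I * a 1,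
    Fin.cons (a 0 - Complex.I * a 1) (fun j : Fin k => a j.succ.succ))
  invFun q := Fin.cons ((q.1 + q.2 0) / 2) (Fin.cons ((q.2 0 - q.1) * Complex.I / 2)
    (fun j : Fin k => q.2 j.succ))
  map_add' a b := by
    ext j
    · simp only [Pi.add_apply, Prod.fst_add]
      ring
    · refine Fin.cases ?_ (fun j => ?_) j
      · simp only [Pi.add_apply, Prod.snd_add, Fin.cons_zero]
        ring
      · simp
  map_smul' r a := by
    ext j
    · simp only [Pi.smul_apply, smul_eq_mul, Prod.smul_fst, RingHom.id_apply]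
      ring
    · refine Fin.cases ?_ (fun j => ?_) j
      · simp only [Pi.smul_apply, smul_eq_mul, Prod.smul_snd, RingHom.id_apply, Fin.cons_zero]
        ring
      · simp
  left_inv a := by
    funext j
    refine Fin.cases ?_ (fun j => ?_) j
    · simp only [Fin.cons_zero]
      ring
    · refine Fin.cases ?_ (fun j => ?_) j
      · simp only [Fin.cons_zero, Fin.cons_succ]
        have : (Fin.succ 0 : Fin (k + 2)) = 1 := rfl
        rw [this]
        linear_combination (-(a 1)) * Complex.I_mul_I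
      · simp
  right_inv q := by
    have h1 : (Fin.cons ((q.1 + q.2 0) / 2) (Fin.cons ((q.2 0 - q.1) * Complex.I / 2)
      (fun j : Fin k => q.2 j.succ)) : Fin (k + 2) → ℂ) 1 = (q.2 0 - q.1) * Complex.I / 2 := rfl
    ext j
    · simp only [Fin.cons_zero, h1]
      linear_combination ((q.2 0 - q.1) / 2) * Complex.I_mul_I
    · refine Fin.cases ?_ (fun j => ?_) j
      · simp only [Fin.cons_zero, h1]
        linear_combination (-((q.2 0 - q.1) / 2)) * Complex.I_mul_I
      · simp

theorem quadric (k : ℕ) :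
    LevelImmerses (Fin (k + 2) → ℂ) (k + 1) (fun a => ∑ i, a i ^ 2) := by
  have h := (quadric_split k).transfer (squares k)
  have e1 : (fun a : Fin (k + 2) → ℂ => ∑ i, a i ^ 2) = fun a =>
      (squares k a).1 * (squares k a).2 0 + ∑ j : Fin k, (squares k a).2 j.succ ^ 2 := by
    funext a
    rw [Fin.sum_univ_succ, Fin.sum_univ_succ]
    simp only [squares, LinearEquiv.coe_mk, LinearMap.coe_mk, AddHom.coe_mk, Fin.cons_zero,
      Fin.cons_succ]
    have : (Fin.succ 0 : Fin (k + 2)) = 1 := rfl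
    rw [this]
    linear_combination ((a 1) ^ 2) * Complex.I_mul_I
  rw [e1]
  exact h

theorem quadratic_form {V : Type} [NormedAddCommGroup V] [NormedSpace ℂ V]
    (Q : QuadraticForm ℂ V) (hQ : (QuadraticMap.associated (R := ℂ) Q).SeparatingLeft) (k : ℕ)
    (hk : Module.finrank ℂ V = k + 2) : LevelImmerses V (k + 1) Q := by
  have : FiniteDimensional ℂ V := Module.finite_of_finrank_pos (by omega)
  obtain ⟨e⟩ := QuadraticForm.equivalent_weightedSumSquares_of_isAlgClosed Q hQ
  rw [hk] at e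
  have h := (quadric k).transfer e.toLinearEquiv
  have e1 : (fun a => ∑ i, e.toLinearEquiv a i ^ 2) = fun a => Q a := by
    funext a
    have := e.map_app a
    rw [QuadraticMap.weightedSumSquares_apply] at this
    rw [← this]
    refine Finset.sum_congr rfl fun i _ => ?_
    simp [sq]
  rw [e1] at h
  exact h

/-- Weighted homogeneous polynomials are semi-invariant under the diagonal action. -/
theorem semi_of_weighted {m : ℕ} (w : Fin m → ℕ) (e : ℕ) (he : 0 < e) {c : MvPolynomial (Fin m) ℂ}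
    (hc : c.IsWeightedHomogeneous w e) :
    SemiInvariant (fun q : ℂ × (Fin m → ℂ) => fun i => Complex.exp ((w i : ℂ) / e * q.1) * q.2 i)
      (fun y => MvPolynomial.eval y c) := by
  intro t y
  simp only [MvPolynomial.eval_eq']
  rw [Finset.mul_sum]
  refine Finset.sum_congr rfl fun s hs => ?_
  have h1 := hc (MvPolynomial.mem_support_iff.1 hs)
  rw [Finsupp.weight_apply, Finsupp.sum_fintype _ _ (by simp)] at h1
  have h2 : ∏ i, (Complex.exp ((w i : ℂ) / e * t) * y i) ^ s i =
      Complex.exp t * ∏ i, y i ^ s i := by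
    simp only [mul_pow]
    rw [Finset.prod_mul_distrib]
    congr 1
    have h3 : ∀ i, Complex.exp ((w i : ℂ) / e * t) ^ s i =
        Complex.exp (((s i * w i : ℕ) : ℂ) * (t / e)) := by
      intro i
      rw [← Complex.exp_nat_mul]
      congr 1
      push_cast
      ring
    simp only [h3]
    rw [← Complex.exp_sum, ← Finset.sum_mul, ← Nat.cast_sum]
    have h4 : ∑ i, s i * w i = e := by simpa using h1
    rw [h4]
    congr 1
    have : (e : ℂ) ≠ 0 := by exact_mod_cast he.ne'
    field_simp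
  rw [h2]
  ring

theorem differentiable_eval {m : ℕ} (c : MvPolynomial (Fin m) ℂ) :
    Differentiable ℂ (fun y : Fin m → ℂ => MvPolynomial.eval y c) := by
  simp only [MvPolynomial.eval_eq']
  fun_prop

/-- **Holomorphic immersions of hypersurfaces in equal dimension.**
(1) For every `n ≥ 2` the group `SL(n)`, the level set `det = 1` in the space of `n × n` matrices, has
a holomorphic immersion into `ℂ^(n^2-1)`.
(2) So have, in equal dimension, all level sets `x c(y) + d(y) = 1` in `ℂ × ℂ^m` with entire functions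
`c`, `d` on `ℂ^m` that are semi-invariant of weight one under a holomorphic action of the additive
group `ℂ` on `ℂ^m`; (3) in particular if `c`, `d` are weighted homogeneous polynomials of the same
degree `e > 0`.
(4) So have the symmetric `n × n` matrices of determinant one, `n ≥ 2`.
(5) So have all smooth affine quadrics `Q = 1`, for nondegenerate quadratic forms `Q` on complex
vector spaces of dimension `k + 2 ≥ 2`. -/
theorem result :
    (∀ n : ℕ, 2 ≤ n →
      LevelImmerses (Fin n → Fin n → ℂ) (n ^ 2 - 1) (fun M => (Matrix.of M).det)) ∧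
    (∀ (m : ℕ) (φ : ℂ × (Fin m → ℂ) → (Fin m → ℂ)) (c d : (Fin m → ℂ) → ℂ), IsAction φ →
      Differentiable ℂ c → Differentiable ℂ d → SemiInvariant φ c → SemiInvariant φ d →
      LevelImmerses (ℂ × (Fin m → ℂ)) m (fun q => q.1 * c q.2 + d q.2)) ∧
    (∀ (m e : ℕ) (w : Fin m → ℕ) (c d : MvPolynomial (Fin m) ℂ), 0 < e →
      c.IsWeightedHomogeneous w e → d.IsWeightedHomogeneous w e →
      LevelImmerses (ℂ × (Fin m → ℂ)) m
        (fun q => q.1 * MvPolynomial.eval q.2 c + MvPolynomial.eval q.2 d)) ∧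
    (∀ n : ℕ, 2 ≤ n → LevelImmerses (Sym2 (Fin n) → ℂ) (n * (n + 1) / 2 - 1)
      (fun a => (Matrix.of fun i j => a s(i, j)).det)) ∧
    (∀ (V : Type) [NormedAddCommGroup V] [NormedSpace ℂ V] (Q : QuadraticForm ℂ V) (k : ℕ),
      (QuadraticMap.associated (R := ℂ) Q).SeparatingLeft → Module.finrank ℂ V = k + 2 →
      LevelImmerses V (k + 1) Q) := by
  refine ⟨special_linear, ?_, ?_, symmetric, ?_⟩
  · intro m φ c d hφ hc hd hcs hds
    exact general' hφ hc hd hcs hds (by simp)
  · intro m e w c d he hc hd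
    exact general' (isAction_diag fun i => (w i : ℂ) / e) (differentiable_eval c)
      (differentiable_eval d) (semi_of_weighted w e he hc) (semi_of_weighted w e he hd) (by simp)
  · intro V _ _ Q k hQ hk
    exact quadratic_form Q hQ k hk

end Pool.Agent.Results.MP_0cafb6_an.HypersurfaceImmersions
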